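import Pool.Agent.H37.STPA.Reg2
import Pool.Agent.H19.BFL.Stmts4

/-!
# Ball frontier lemma, row TIM: the times of a large event are nearly uniform given the line
-/

set_option autoImplicit false

namespace Pool.BFL

open Finset Real
open Pool.Agent.H49.Ent Pool.Agent.H32.Dense Pool.STK Pool.KS3 Pool.KA Pool.KSAT Pool.K2S Pool.PB
  Pool.FLF

/-- Row TIM. -/
theorem tim_thm : TIMStmt := by
  classical
  intro m J F τ B hτ hTr hTm hRb hB
  have hA : 0 < Pe F.p B := lt_of_lt_of_le (Real.exp_pos _) hB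
  have h1 := Pool.STPA.sub_Tm_of_reg hTr hTm hRb hA hB
  have h2 : CH (Fam.sub F B hA).p (fun ω : {ω // B ω} => F.T ω.1)
      (fun ω : {ω // B ω} => (F.l ω.1, F.Z ω.1)) =
      CH (Pool.Agent.H49.Ent.cond F.p B True) F.T (fun ω => (F.l ω, F.Z ω)) :=
    Pool.FLF.sub_marg.CH F.T (fun ω => (F.l ω, F.Z ω))
  rw [← h2]
  have h3 : (J : ℝ) * Real.log 2 - (4 * (τ * J) + τ * J + τ * J) ≤
      CH (Fam.sub F B hA).p (fun ω : {ω // B ω} => F.T ω.1)
      (fun ω : {ω // B ω} => (F.l ω.1, F.Z ω.1)) := h1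
  have h4 : 0 ≤ τ * J := mul_nonneg hτ (Nat.cast_nonneg J)
  linarith

end Pool.BFL
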