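import Pool.Agent.H19.BFL.Stmts
import Pool.Agent.H97.K2.PTI

/-!
# Board kbfl, row SPN: directions of the walk in general position
-/

set_option autoImplicit false

namespace Pool.Agent.H55.BFL

open Finset Real
open Pool.Agent.H49.Ent Pool.Agent.H32.Dense Pool.STK Pool.KS3 Pool.BFL

section

variable {W S T U : Type} [Fintype W]

/-- Conditional independence in product form. -/
lemma ci_prod {q : W → ℝ} (hq : IsLaw q) {A : W → S} {B : W → T} {Z : W → U} (h : CI q A B Z)
    {w : W} (hw : 0 < q w) :
    law q (fun w => (A w, (B w, Z w))) (A w, (B w, Z w)) * law q Z (Z w) =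
      law q (fun w => (B w, Z w)) (B w, Z w) * law q (fun w => (A w, Z w)) (A w, Z w) := by
  classical
  have hn := hq.nonneg
  set ρ : W → ℝ := fun w => law q (fun w => (B w, Z w)) (B w, Z w) *
    law q (fun w => (A w, Z w)) (A w, Z w) /
    (law q (fun w => (A w, (B w, Z w))) (A w, (B w, Z w)) * law q Z (Z w)) with hρ
  have hpos : ∀ w, 0 < q w → 0 < ρ w := by
    intro w hw
    have l1 := law_pos hn (fun w => (B w, Z w)) hw
    have l2 := law_pos hn (fun w => (A w, Z w)) hw
    have l3 := law_pos hn (fun w => (A w, (B w, Z w))) hw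
    have l4 := law_pos hn Z hw
    simp only [hρ]
    positivity
  have h1 : Ex q ρ ≤ 1 := by
    have h2 := Pool.KX.PTI.lr_step hn (S := fun w => (B w, Z w)) (a := Z)
      (a' := fun w => (A w, Z w)) (s' := fun w => (A w, (B w, Z w))) (f := fun _ => 1)
      (fun ω ω' _ _ he => (Prod.ext_iff.1 he).2)
      (fun ω ω' _ _ he => by
        simp only [Prod.mk.injEq] at he ⊢
        tauto)
      (fun ω ω' _ _ he => (Prod.ext_iff.1 he).2) (fun _ => zero_le_one) (fun _ _ _ _ _ => rfl)
    rw [Ex_const hq.sum_one] at h2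
    refine le_trans (le_of_eq ?_) h2
    unfold Ex
    refine Finset.sum_congr rfl fun w _ => ?_
    simp only [hρ, one_mul]
  have h2 : Ex q (fun w => Real.log (ρ w)) = 0 := by
    unfold CI at h
    rw [CH_eq_neg_sum hn, CH_eq_neg_sum hn] at h
    have h3 : Ex q (fun w => Real.log (ρ w)) =
        Ex q (fun w => -Real.log (law q (fun w => (A w, (B w, Z w))) (A w, (B w, Z w)) /
          law q (fun w => (B w, Z w)) (B w, Z w)) -
          -Real.log (law q (fun w => (A w, Z w)) (A w, Z w) / law q Z (Z w))) := by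
      unfold Ex
      refine Finset.sum_congr rfl fun w _ => ?_
      rcases (hn w).eq_or_lt with h0 | h0
      · rw [← h0, zero_mul, zero_mul]
      have l1 := law_pos hn (fun w => (B w, Z w)) h0
      have l2 := law_pos hn (fun w => (A w, Z w)) h0
      have l3 := law_pos hn (fun w => (A w, (B w, Z w))) h0
      have l4 := law_pos hn Z h0
      simp only [hρ]
      rw [Real.log_div (by positivity) (by positivity), Real.log_mul l1.ne' l2.ne',
        Real.log_mul l3.ne' l4.ne', Real.log_div l3.ne' l1.ne', Real.log_div l2.ne' l4.ne']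
      ring
    rw [h3, Ex_sub, h, sub_self]
  have h3 : Ex q (fun w => ρ w - 1 - Real.log (ρ w)) ≤ 0 := by
    have e1 := Ex_sub q (fun w => ρ w - 1) (fun w => Real.log (ρ w))
    have e2 := Ex_sub q ρ (fun _ => (1 : ℝ))
    rw [Ex_const hq.sum_one] at e2
    rw [e1, h2]
    have e3 : Ex q (fun w => ρ w - 1) = Ex q ρ - 1 := e2
    rw [e3]
    linarith
  have h4 : ∀ w ∈ (univ : Finset W), 0 ≤ q w * (ρ w - 1 - Real.log (ρ w)) := by
    intro w _
    rcases (hn w).eq_or_lt with h0 | h0
    · rw [← h0, zero_mul]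
    · have := Real.log_le_sub_one_of_pos (hpos w h0)
      exact mul_nonneg h0.le (by linarith)
  have h5 : ∑ w, q w * (ρ w - 1 - Real.log (ρ w)) = 0 :=
    le_antisymm h3 (Finset.sum_nonneg h4)
  have h6 := (Finset.sum_eq_zero_iff_of_nonneg h4).1 h5 w (mem_univ w)
  have h7 : ρ w - 1 - Real.log (ρ w) = 0 := by
    rcases mul_eq_zero.1 h6 with h8 | h8
    · exact absurd h8 hw.ne'
    · exact h8
  have h8 : ρ w = 1 := by
    by_contra hne
    have := Real.log_lt_sub_one_of_pos (hpos w hw) hne
    linarith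
  have l3 := law_pos hn (fun w => (A w, (B w, Z w))) hw
  have l4 := law_pos hn Z hw
  simp only [hρ] at h8
  rw [div_eq_one_iff_eq (by positivity)] at h8
  exact h8.symm

/-- One leg of the walk. -/
lemma step {Ω C : Type} [Fintype Ω] {n : ℕ} {q : W → ℝ} {p : Ω → ℝ} (hq : IsLaw q)
    (hp : IsLaw p) {F : W → Ω} {u : W → Fin n → ℝ} {Zc : W → C} {cc : Ω → C} (E : Ω → Fin n → ℝ)
    (hCI : CI q F u Zc) (hF : Marg q p F) (hZ : ∀ w, 0 < q w → Zc w = cc (F w)) {e' : C → ℝ}
    (he : ∀ x, 0 ≤ e' x) {δ ε : ℝ}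
    (nc : ∀ ω, 0 < p ω → ∀ v : Fin n → ℝ, (∃ i, 1 ≤ |v i|) →
      Pb p (fun ω' => cc ω' = cc ω ∧ |∑ i, v i * E ω' i| ≤ δ) ≤ e' (cc ω) * law p cc (cc ω))
    (hε : Ex p (fun ω => e' (cc ω)) ≤ ε) :
    Pb q (fun w => (∃ i, 1 ≤ |u w i|) ∧ |∑ i, u w i * E (F w) i| ≤ δ) ≤ ε := by
  classical
  have hn := hq.nonneg
  -- laws
  have hlF : ∀ (b : Ω) (s : C), law q (fun w => (F w, Zc w)) (b, s) =
      if cc b = s then p b else 0 := by
    intro b s
    have h1 : law q (fun w => (F w, Zc w)) (b, s) = ∑ w, q w *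
        (fun ω => if ω = b then (if cc b = s then (1 : ℝ) else 0) else 0) (F w) := by
      unfold law
      refine Finset.sum_congr rfl fun w _ => ?_
      rcases (hn w).eq_or_lt with h0 | h0
      · rw [← h0, ite_self, zero_mul]
      · simp only [Prod.mk.injEq]
        by_cases hb : F w = b
        · rw [if_pos hb, hZ w h0, hb]
          by_cases hs : cc b = s
          · rw [if_pos ⟨rfl, hs⟩, if_pos hs, mul_one]
          · rw [if_neg (fun h => hs h.2), if_neg hs, mul_zero]
        · rw [if_neg (fun h => hb h.1), if_neg hb, mul_zero]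
    have h2 := hF.ex (fun ω => if ω = b then (if cc b = s then (1 : ℝ) else 0) else 0)
    unfold Ex at h2
    rw [h1]
    refine h2.trans ?_
    rw [Finset.sum_eq_single b]
    · show p b * (if b = b then (if cc b = s then (1 : ℝ) else 0) else 0) = _
      rw [if_pos rfl, mul_ite, mul_one, mul_zero]
    · intro ω _ hω
      show p ω * (if ω = b then (if cc b = s then (1 : ℝ) else 0) else 0) = 0
      rw [if_neg hω, mul_zero]
    · intro h
      exact absurd (mem_univ b) h
  have hlZ : ∀ s : C, law q Zc s = law p cc s := by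
    intro s
    have h1 : law q Zc s = ∑ w, q w * (fun ω => if cc ω = s then (1 : ℝ) else 0) (F w) := by
      unfold law
      refine Finset.sum_congr rfl fun w _ => ?_
      rcases (hn w).eq_or_lt with h0 | h0
      · rw [← h0, ite_self, zero_mul]
      · simp only [hZ w h0, mul_ite, mul_one, mul_zero]
    have h2 := hF.ex (fun ω => if cc ω = s then (1 : ℝ) else 0)
    unfold Ex at h2
    rw [h1]
    refine h2.trans ?_
    unfold law
    refine Finset.sum_congr rfl fun ω _ => ?_
    rw [mul_ite, mul_one, mul_zero]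
  set R : (Fin n → ℝ) → Ω → Prop := fun v b => (∃ i, 1 ≤ |v i|) ∧ |∑ i, v i * E b i| ≤ δ with hR
  set X : W → Ω × ((Fin n → ℝ) × C) := fun w => (F w, (u w, Zc w)) with hX
  set t : Ω × ((Fin n → ℝ) × C) → ℝ := fun v => if R v.2.1 v.1 then
    law q (fun w => (u w, Zc w)) v.2 * (if cc v.1 = v.2.2 then p v.1 else 0) /
      law q Zc v.2.2 else 0 with ht
  have ht0 : ∀ v, 0 ≤ t v := by
    intro v
    simp only [ht]
    split_ifs
    · exact div_nonneg (mul_nonneg (law_nonneg hn _ _) (hp.nonneg _)) (law_nonneg hn _ _)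
    · rw [mul_zero, zero_div]
    · exact le_rfl
  have e1 : Pb q (fun w => (∃ i, 1 ≤ |u w i|) ∧ |∑ i, u w i * E (F w) i| ≤ δ) =
      ∑ v ∈ univ.image X, law q X v * (if R v.2.1 v.1 then (1 : ℝ) else 0) := by
    rw [← sum_mul_eq_sum_image q X (fun v => if R v.2.1 v.1 then (1 : ℝ) else 0)]
    unfold Pb
    refine Finset.sum_congr rfl fun w _ => ?_
    rw [mul_ite, mul_one, mul_zero]
    by_cases h : R (u w) (F w)
    · exact (if_pos h).trans (if_pos h).symm
    · exact (if_neg h).trans (if_neg h).symm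
  have e2 : ∀ v ∈ univ.image X, law q X v * (if R v.2.1 v.1 then (1 : ℝ) else 0) ≤ t v := by
    intro v hv
    obtain ⟨w, -, rfl⟩ := Finset.mem_image.1 hv
    by_cases hr : R (X w).2.1 (X w).1
    · rw [if_pos hr, mul_one]
      rcases (law_nonneg hn X (X w)).eq_or_lt with h0 | h0
      · rw [← h0]
        exact ht0 _
      -- a point of the support
      obtain ⟨w', hw', hx⟩ : ∃ w', 0 < q w' ∧ X w' = X w := by
        by_contra hcon
        push Not at hcon
        have : law q X (X w) = 0 := by
          unfold law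
          refine Finset.sum_eq_zero fun w' _ => ?_
          by_cases hxx : X w' = X w
          · rw [if_pos hxx]
            rcases (hn w').eq_or_lt with h1 | h1
            · exact h1.symm
            · exact absurd hxx (hcon w' h1)
          · rw [if_neg hxx]
        rw [this] at h0
        exact lt_irrefl _ h0
      rw [← hx] at hr ⊢
      have h1 := ci_prod hq hCI hw'
      have l4 := law_pos hn Zc hw'
      have h2 : law q X (X w') = law q (fun w => (u w, Zc w)) (u w', Zc w') *
          law q (fun w => (F w, Zc w)) (F w', Zc w') / law q Zc (Zc w') := by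
        rw [eq_div_iff l4.ne']
        exact h1
      rw [h2, hlF]
      simp only [ht]
      rw [if_pos hr]
    · rw [if_neg hr, mul_zero]
      exact ht0 _
  have e3 : univ.image X ⊆ (univ : Finset Ω) ×ˢ (univ.image fun w => (u w, Zc w)) := by
    intro v hv
    obtain ⟨w, -, rfl⟩ := Finset.mem_image.1 hv
    exact Finset.mem_product.2 ⟨mem_univ _, Finset.mem_image_of_mem _ (mem_univ w)⟩
  rw [e1]
  refine (Finset.sum_le_sum e2).trans ?_
  refine (Finset.sum_le_sum_of_subset_of_nonneg e3 fun v _ _ => ht0 v).trans ?_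
  rw [Finset.sum_product_right]
  have e4 : ∀ y ∈ univ.image (fun w => (u w, Zc w)), ∑ b, t (b, y) ≤
      law q (fun w => (u w, Zc w)) y * e' y.2 := by
    intro y hy
    obtain ⟨w, -, rfl⟩ := Finset.mem_image.1 hy
    rcases (law_nonneg hn (fun w => (u w, Zc w)) (u w, Zc w)).eq_or_lt with h0 | h0
    · rw [← h0, zero_mul]
      refine le_of_eq (Finset.sum_eq_zero fun b _ => ?_)
      simp only [ht]
      split_ifs
      · rw [← h0, zero_mul, zero_div]
      · rw [mul_zero, zero_div]
      · rfl
    obtain ⟨w', hw', hx⟩ : ∃ w', 0 < q w' ∧ (u w', Zc w') = (u w, Zc w) := by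
      by_contra hcon
      push Not at hcon
      have : law q (fun w => (u w, Zc w)) (u w, Zc w) = 0 := by
        unfold law
        refine Finset.sum_eq_zero fun w' _ => ?_
        by_cases hxx : (u w', Zc w') = (u w, Zc w)
        · rw [if_pos hxx]
          rcases (hn w').eq_or_lt with h1 | h1
          · exact h1.symm
          · exact absurd hxx (hcon w' h1)
        · rw [if_neg hxx]
      rw [this] at h0
      exact lt_irrefl _ h0
    rw [← hx]
    have l4 := law_pos hn Zc hw'
    have l5 := law_pos hn (fun w => (u w, Zc w)) hw'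
    by_cases hu : ∃ i, 1 ≤ |u w' i|
    · have hpF : 0 < p (F w') := hF.pos hn hw'
      have h1 := nc (F w') hpF (u w') hu
      rw [← hZ w' hw', ← hlZ] at h1
      have h2 : ∑ b, t (b, (u w', Zc w')) = law q (fun w => (u w, Zc w)) (u w', Zc w') /
          law q Zc (Zc w') * Pb p (fun ω' => cc ω' = Zc w' ∧ |∑ i, u w' i * E ω' i| ≤ δ) := by
        unfold Pb
        rw [Finset.mul_sum]
        refine Finset.sum_congr rfl fun b _ => ?_
        simp only [ht, hR]
        by_cases hc : cc b = Zc w'
        · by_cases hd : |∑ i, u w' i * E b i| ≤ δ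
          · rw [if_pos ⟨hu, hd⟩, if_pos hc, if_pos ⟨hc, hd⟩]
            ring
          · rw [if_neg (fun h => hd h.2), if_neg (fun h => hd h.2), mul_zero]
        · rw [if_neg (fun h : cc b = Zc w' ∧ _ => hc h.1), mul_zero]
          split_ifs
          · rw [mul_zero, zero_div]
          · rfl
      rw [h2]
      have h3 : law q (fun w => (u w, Zc w)) (u w', Zc w') / law q Zc (Zc w') *
          Pb p (fun ω' => cc ω' = Zc w' ∧ |∑ i, u w' i * E ω' i| ≤ δ) ≤
          law q (fun w => (u w, Zc w)) (u w', Zc w') / law q Zc (Zc w') *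
            (e' (Zc w') * law q Zc (Zc w')) :=
        mul_le_mul_of_nonneg_left h1 (by positivity)
      refine h3.trans (le_of_eq ?_)
      field_simp
    · have h2 : ∑ b, t (b, (u w', Zc w')) = 0 := by
        refine Finset.sum_eq_zero fun b _ => ?_
        simp only [ht, hR]
        rw [if_neg (fun h => hu h.1)]
      rw [h2]
      exact mul_nonneg l5.le (he _)
  refine (Finset.sum_le_sum e4).trans ?_
  rw [← sum_mul_eq_sum_image q (fun w => (u w, Zc w)) (fun y => e' y.2)]
  have e5 : ∑ w, q w * e' (Zc w) = ∑ w, q w * (fun ω => e' (cc ω)) (F w) := by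
    refine Finset.sum_congr rfl fun w _ => ?_
    rcases (hn w).eq_or_lt with h0 | h0
    · rw [← h0, zero_mul, zero_mul]
    · simp only [hZ w h0]
  have e6 := hF.ex (fun ω => e' (cc ω))
  unfold Ex at e6
  rw [e5]
  refine (le_of_eq e6).trans ?_
  exact hε

lemma Pb_union {q : W → ℝ} (hq : ∀ w, 0 ≤ q w) {A B C : W → Prop}
    (h : ∀ w, 0 < q w → A w → B w ∨ C w) : Pb q A ≤ Pb q B + Pb q C := by
  classical
  unfold Pb
  rw [← Finset.sum_add_distrib]
  refine Finset.sum_le_sum fun w _ => ?_
  rcases (hq w).eq_or_lt with h0 | h0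
  · rw [← h0, ite_self, ite_self, ite_self, add_zero]
  by_cases hA : A w
  · rw [if_pos hA]
    rcases h w h0 hA with hB | hC
    · rw [if_pos hB]
      split_ifs <;> linarith
    · rw [if_pos hC]
      split_ifs <;> linarith
  · rw [if_neg hA]
    split_ifs <;> linarith

end

section minors

variable {n : ℕ}

/-- The leading minors. -/
noncomputable def LM (k : ℕ) (hk : k ≤ n) (f : ℕ → Fin n → ℝ) : ℝ :=
  Matrix.det (Matrix.of fun (i j : Fin k) => f j (Fin.castLE hk i))

/-- The cofactors of the last column. -/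
noncomputable def cof (k : ℕ) (hk : k + 1 ≤ n) (f : ℕ → Fin n → ℝ) (i : Fin (k + 1)) : ℝ :=
  (-1) ^ ((i : ℕ) + k) * Matrix.det ((Matrix.of fun (i j : Fin (k + 1)) =>
    f j (Fin.castLE hk i)).submatrix i.succAbove (Fin.last k).succAbove)

lemma LM_succ (k : ℕ) (hk : k + 1 ≤ n) (f : ℕ → Fin n → ℝ) :
    LM (k + 1) hk f = ∑ i, cof k hk f i * f k (Fin.castLE hk i) := by
  unfold LM cof
  rw [Matrix.det_succ_column _ (Fin.last k)]
  refine Finset.sum_congr rfl fun i _ => ?_
  simp only [Matrix.of_apply, Fin.val_last]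
  ring

lemma cof_last (k : ℕ) (hk : k + 1 ≤ n) (f : ℕ → Fin n → ℝ) :
    cof k hk f (Fin.last k) = LM k (Nat.le_of_succ_le hk) f := by
  unfold LM cof
  rw [Fin.val_last, ← two_mul, pow_mul, neg_one_sq, one_pow, one_mul]
  congr 1
  ext i j
  simp only [Matrix.submatrix_apply, Matrix.of_apply, Fin.succAbove_last]
  rfl

lemma cof_congr (k : ℕ) (hk : k + 1 ≤ n) {f f' : ℕ → Fin n → ℝ} (h : ∀ j < k, f j = f' j)
    (i : Fin (k + 1)) : cof k hk f i = cof k hk f' i := by
  unfold cof
  congr 2
  ext i' j'
  simp only [Matrix.submatrix_apply, Matrix.of_apply, Fin.succAbove_last, Fin.val_castSucc]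
  rw [h j' j'.isLt]

/-- The normalised vector of the cofactors. -/
noncomputable def uv (k : ℕ) (hk : k + 1 ≤ n) (δ : ℝ) (f : ℕ → Fin n → ℝ) (i : Fin n) : ℝ :=
  if h : i.val < k + 1 then cof k hk f ⟨i.val, h⟩ / δ ^ k else 0

lemma uv_congr (k : ℕ) (hk : k + 1 ≤ n) (δ : ℝ) {f f' : ℕ → Fin n → ℝ}
    (h : ∀ j < k, f j = f' j) : uv k hk δ f = uv k hk δ f' := by
  funext i
  unfold uv
  split_ifs with hi
  · rw [cof_congr k hk h]
  · rfl

lemma uv_sum (k : ℕ) (hk : k + 1 ≤ n) (δ : ℝ) (f : ℕ → Fin n → ℝ) :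
    ∑ i, uv k hk δ f i * f k i = LM (k + 1) hk f / δ ^ k := by
  classical
  rw [LM_succ, Finset.sum_div]
  have h1 : ∑ i ∈ univ.map (Fin.castLEEmb hk), uv k hk δ f i * f k i =
      ∑ i, uv k hk δ f i * f k i := by
    refine Finset.sum_subset (Finset.subset_univ _) fun i _ hi => ?_
    unfold uv
    rw [dif_neg, zero_mul]
    intro h
    apply hi
    rw [Finset.mem_map]
    exact ⟨⟨i.val, h⟩, mem_univ _, Fin.ext rfl⟩
  rw [← h1, Finset.sum_map]
  refine Finset.sum_congr rfl fun i _ => ?_
  have h2 : (Fin.castLEEmb hk) i = Fin.castLE hk i := rfl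
  rw [h2]
  unfold uv
  rw [dif_pos (show (Fin.castLE hk i).val < k + 1 from i.isLt)]
  have h3 : (⟨(Fin.castLE hk i).val, i.isLt⟩ : Fin (k + 1)) = i := Fin.ext rfl
  rw [h3]
  ring

end minors

/-- Row SPN. -/
theorem spn_thm : SPNStmt := by
  classical
  intro n Ω G B W _ _ p g bk E N a₀ q z δ ε e hp hmc ha hδ he0 heε nc
  have hq := hmc.isLaw
  have hn := hq.nonneg
  set f : W → ℕ → Fin n → ℝ := fun w j => E (z (2 * (a₀ + j)) w) with hf
  have hε0 : 0 ≤ ε := le_trans (Ex_nonneg hp.nonneg fun ω _ => he0 _) heε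
  -- the extended error
  set e' : G ⊕ B → ℝ := fun x => Sum.elim (fun _ => (0 : ℝ)) e x with he'
  have he'0 : ∀ x, 0 ≤ e' x := by
    rintro (x | x)
    · exact le_rfl
    · exact he0 x
  have main : ∀ (k : ℕ) (hk : k ≤ n), Pb q (fun w => |LM k hk (f w)| < δ ^ k) ≤ k * ε := by
    intro k
    induction k with
    | zero =>
      intro hk
      have h1 : Pb q (fun w => |LM 0 hk (f w)| < δ ^ 0) = 0 := by
        unfold Pb
        refine Finset.sum_eq_zero fun w _ => ?_
        rw [if_neg]
        show ¬ |LM 0 hk (f w)| < δ ^ 0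
        unfold LM
        rw [Matrix.det_isEmpty, abs_one, pow_zero]
        exact lt_irrefl _
      rw [h1, Nat.cast_zero, zero_mul]
    | succ k ih =>
      intro hk
      have hk' : k ≤ n := Nat.le_of_succ_le hk
      have ih' := ih hk'
      -- the last leg
      have hleg : Pb q (fun w => (∃ i, 1 ≤ |uv k hk δ (f w) i|) ∧
          |∑ i, uv k hk δ (f w) i * E (z (2 * (a₀ + k)) w) i| ≤ δ) ≤ ε := by
        have hMF : Marg q p (z (2 * (a₀ + k))) := hmc.marg _ (by omega)
        have hidx : ∀ w, 0 < q w → (fun w => (Sum.inr (bk (z (2 * (a₀ + k)) w)) : G ⊕ B)) w =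
            (fun ω => (Sum.inr (bk ω) : G ⊕ B)) (z (2 * (a₀ + k)) w) := fun w _ => rfl
        have hlaw : ∀ ω, law p (fun ω => (Sum.inr (bk ω) : G ⊕ B)) (Sum.inr (bk ω)) =
            law p bk (bk ω) := by
          intro ω
          unfold law
          refine Finset.sum_congr rfl fun v _ => ?_
          by_cases h : bk v = bk ω
          · rw [if_pos h, if_pos (show (Sum.inr (bk v) : G ⊕ B) = Sum.inr (bk ω) by rw [h])]
          · rw [if_neg h, if_neg (fun h' => h (Sum.inr_injective h'))]
        have hnc : ∀ ω, 0 < p ω → ∀ v : Fin n → ℝ, (∃ i, 1 ≤ |v i|) →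
            Pb p (fun ω' => (Sum.inr (bk ω') : G ⊕ B) = Sum.inr (bk ω) ∧
              |∑ i, v i * E ω' i| ≤ δ) ≤
            e' (Sum.inr (bk ω)) * law p (fun ω => (Sum.inr (bk ω) : G ⊕ B)) (Sum.inr (bk ω)) := by
          intro ω hω v hv
          rw [hlaw ω]
          refine le_trans ?_ (nc ω hω v hv)
          unfold Pb
          refine Finset.sum_le_sum fun v' _ => ?_
          by_cases h : bk v' = bk ω ∧ |∑ i, v i * E v' i| ≤ δ
          · rw [if_pos h]
            split_ifs <;> linarith [hp.nonneg v']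
          · rw [if_neg h, if_neg]
            intro h'
            exact h ⟨Sum.inr_injective h'.1, h'.2⟩
        -- conditional independence
        have hCI : CI q (z (2 * (a₀ + k))) (fun w => uv k hk δ (f w))
            (fun w => (Sum.inr (bk (z (2 * (a₀ + k)) w)) : G ⊕ B)) := by
          rcases Nat.eq_zero_or_pos k with h0 | h0
          · -- a constant vector
            refine CI_of_le hn ?_
            refine CH_mono_cond hn ?_
            intro w w' _ _ hww
            refine Prod.ext ?_ hww
            show uv k hk δ (f w) = uv k hk δ (f w')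
            refine uv_congr k hk δ fun j hj => ?_
            omega
          · have hi : 2 * (a₀ + k) - 1 < 2 * N - 1 := by omega
            have h1 := hmc.markov (2 * (a₀ + k) - 1) hi
            have e1 : 2 * (a₀ + k) - 1 + 1 = 2 * (a₀ + k) := by omega
            have h2 := h1.mono_left (A' := z (2 * (a₀ + k))) hn (by
              intro w w' _ _ hww
              have h3 := congrFun (Prod.ext_iff.1 hww).1 ⟨0, by omega⟩
              simp only [add_zero, e1] at h3
              exact h3)
            have h3 := h2.mono_right (B' := fun w => uv k hk δ (f w)) hn (by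
              intro w w' _ _ hww
              refine uv_congr k hk δ fun j hj => ?_
              have h4 := congrFun (Prod.ext_iff.1 hww).1 ⟨2 * (a₀ + j), by omega⟩
              simp only [hf]
              simp only at h4
              rw [h4])
            have hs : ∀ w, 0 < q w → alt g bk (2 * (a₀ + k) - 1) (z (2 * (a₀ + k) - 1) w) =
                Sum.inr (bk (z (2 * (a₀ + k)) w)) := by
              intro w hw
              rw [hmc.same w hw _ hi, e1]
              unfold alt
              rw [if_neg (by omega)]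
            exact h3.replace hn (fun _ _ => rfl) (fun _ _ => rfl) hs
        have hexp : Ex p (fun ω => e' ((fun ω => (Sum.inr (bk ω) : G ⊕ B)) ω)) ≤ ε := heε
        exact step hq hp E hCI hMF hidx he'0 hnc hexp
      have hun : Pb q (fun w => |LM (k + 1) hk (f w)| < δ ^ (k + 1)) ≤
          Pb q (fun w => |LM k hk' (f w)| < δ ^ k) +
          Pb q (fun w => (∃ i, 1 ≤ |uv k hk δ (f w) i|) ∧
            |∑ i, uv k hk δ (f w) i * E (z (2 * (a₀ + k)) w) i| ≤ δ) := by
        refine Pb_union hn fun w _ hw => ?_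
        by_cases h1 : |LM k hk' (f w)| < δ ^ k
        · exact Or.inl h1
        · right
          have hδk : 0 < δ ^ k := pow_pos hδ k
          refine ⟨⟨⟨k, hk⟩, ?_⟩, ?_⟩
          · unfold uv
            rw [dif_pos (Nat.lt_succ_self k)]
            have h2 : (⟨k, Nat.lt_succ_self k⟩ : Fin (k + 1)) = Fin.last k := rfl
            rw [h2, cof_last, abs_div, abs_of_pos hδk, le_div_iff₀ hδk, one_mul]
            exact not_lt.1 h1
          · have h2 : ∑ i, uv k hk δ (f w) i * E (z (2 * (a₀ + k)) w) i =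
                LM (k + 1) hk (f w) / δ ^ k := uv_sum k hk δ (f w)
            rw [h2, abs_div, abs_of_pos hδk, div_le_iff₀ hδk]
            have h3 : δ * δ ^ k = δ ^ (k + 1) := by ring
            rw [h3]
            exact hw.le
      push_cast
      linarith
  have h1 := main n le_rfl
  exact h1

end Pool.Agent.H55.BFL
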