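import Pool.Agent.H19.BFL.Stmts2
import Pool.Agent.H39.BFL.QPol

/-!
# Row QPL: the height of a walk is a homogeneous polynomial in the lengths
-/

set_option autoImplicit false

namespace Pool.Agent.H55.BFL

open Finset
open Pool.BFL Pool.Agent.H39.BFL

lemma prim_homog {N D : ℕ} (a : Fin N) (F : Pl N) (hF : F.IsHomogeneous D) :
    (prim a F).IsHomogeneous (D + 1) := by
  classical
  unfold prim
  refine MvPolynomial.IsHomogeneous.sum _ _ _ fun α hα => ?_
  refine MvPolynomial.isHomogeneous_monomial _ ?_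
  have h1 : Finsupp.degree α = D := by
    have h2 := hF (MvPolynomial.mem_support_iff.mp hα)
    rw [← h2, Finsupp.degree_eq_weight_one]
    rfl
  rw [map_add, h1, Finsupp.degree_single]

lemma legL_homog {n N : ℕ} (E : Fin N → Fin n → ℝ) (a : Fin N) (i : Fin n) :
    (legL E a i).IsHomogeneous 1 := by
  have h1 : ∀ (e : ℝ) (c : Fin N),
      (MvPolynomial.C e * MvPolynomial.X c : Pl N).IsHomogeneous 1 := by
    intro e c
    have := (MvPolynomial.isHomogeneous_C (Fin N) e).mul (MvPolynomial.isHomogeneous_X ℝ c)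
    rwa [zero_add] at this
  unfold legL
  exact (h1 _ _).add (MvPolynomial.IsHomogeneous.sum _ _ _ fun c _ => h1 _ _)

lemma legF_homog {n N D : ℕ} {b : Pl n} (hb : b.IsHomogeneous D) (E : Fin N → Fin n → ℝ)
    (a : Fin N) : (legF b E a).IsHomogeneous D := by
  unfold legF
  refine MvPolynomial.IsHomogeneous.sum _ _ _ fun α hα => ?_
  have h1 : ∑ i, α i = D := by
    have h2 := hb (MvPolynomial.mem_support_iff.mp hα)
    rw [← h2, ← Finsupp.degree_eq_sum, Finsupp.degree_eq_weight_one]
    rfl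
  have h2 : (∏ i, legL E a i ^ α i : Pl N).IsHomogeneous (∑ i, α i) := by
    refine MvPolynomial.IsHomogeneous.prod _ _ _ fun i _ => ?_
    have := (legL_homog E a i).pow (α i)
    rwa [one_mul] at this
  have h3 := (MvPolynomial.isHomogeneous_C (Fin N) (b.coeff α)).mul h2
  rwa [zero_add, h1] at h3

theorem qpl_thm : QPLStmt := by
  intro n N j C₀ hj hC₀
  obtain ⟨C, hC, h⟩ := qpol n N (j - 1) C₀ hC₀
  refine ⟨C, hC, fun b E r hb hE hr hr0 => ?_⟩
  obtain ⟨h1, -, h3⟩ := h b E r hE (fun a => (hb a).totalDegree_le) hr0 hr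
  refine ⟨QP b E, ?_, h3, h1⟩
  unfold QP
  refine MvPolynomial.IsHomogeneous.sum _ _ _ fun a _ => ?_
  have := prim_homog a _ (legF_homog (hb a) E a)
  rwa [Nat.sub_add_cancel hj] at this

end Pool.Agent.H55.BFL
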